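import Pool.Agent.MP_55bf9a_co.Defs

-- part MP_55bf9a_co.Key
section

/-!
Matched structures and the counting lemma.
-/

namespace Pool.Agent.MP_55bf9a_co

open Finset

variable {V : Type*} {G : SimpleGraph V}

/-- Equal or adjacent. -/
def N (G : SimpleGraph V) (v p : V) : Prop := v = p ∨ G.Adj v p

lemma N.symm {v p : V} (h : N G v p) : N G p v := h.imp Eq.symm fun h => h.symm

lemma N.refl (v : V) : N G v v := Or.inl rfl

/-- Irredundant in the subgraph induced by `S`. -/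
def irr (G : SimpleGraph V) (S X : Finset V) : Prop :=
  X ⊆ S ∧ ∀ x ∈ X, ∃ p ∈ S, N G x p ∧ ∀ y ∈ X, y ≠ x → ¬N G y p

/-- Dominating in the subgraph induced by `S`. -/
def dom (G : SimpleGraph V) (S X : Finset V) : Prop := ∀ v ∈ S, ∃ x ∈ X, N G x v

/-- No induced chair. -/
def CF (G : SimpleGraph V) : Prop :=
  ∀ c a b d e : V, G.Adj c a → G.Adj c b → G.Adj c d → G.Adj d e → ¬N G a b → ¬G.Adj a d →
    ¬G.Adj b d → ¬N G a e → ¬N G b e → ¬N G c e → False

/-- Two independently matched sets without isolated vertices. -/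
structure Mt (G : SimpleGraph V) (Z : Finset V) (σ : V → V) (s : V → Bool) : Prop where
  mem : ∀ z ∈ Z, σ z ∈ Z
  inv : ∀ z ∈ Z, σ (σ z) = z
  side : ∀ z ∈ Z, s (σ z) = !s z
  adj : ∀ z ∈ Z, G.Adj z (σ z)
  uniq : ∀ z ∈ Z, ∀ z' ∈ Z, G.Adj z z' → s z' = s z ∨ z' = σ z
  nbr : ∀ z ∈ Z, ∃ z' ∈ Z, G.Adj z z' ∧ s z' = s z

/-- Both sides are unions of cliques. -/
def CU (G : SimpleGraph V) (Z : Finset V) (s : V → Bool) : Prop :=
  ∀ a ∈ Z, ∀ b ∈ Z, ∀ c ∈ Z, s b = s a → s c = s a → G.Adj a b → G.Adj a c → N G b c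

/-- Reachability inside `Z`. -/
def R (G : SimpleGraph V) (Z : Finset V) : V → V → Prop :=
  Relation.ReflTransGen fun x y => x ∈ Z ∧ y ∈ Z ∧ G.Adj x y

/-- Connectedness of `Z`. -/
def Conn (G : SimpleGraph V) (Z : Finset V) : Prop := ∀ a ∈ Z, ∀ b ∈ Z, R G Z a b

/-- `Z` contains a triangle. -/
def Tri (G : SimpleGraph V) (Z : Finset V) : Prop :=
  ∃ a ∈ Z, ∃ b ∈ Z, ∃ c ∈ Z, G.Adj a b ∧ G.Adj a c ∧ G.Adj b c

variable {Z S D : Finset V} {σ : V → V} {s : V → Bool}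

lemma Conn.ind (h : Conn G Z) {Q : V → Prop} (hQ : ∀ x ∈ Z, ∀ y ∈ Z, G.Adj x y → Q x → Q y)
    {a : V} (ha : a ∈ Z) (hQa : Q a) {b : V} (hb : b ∈ Z) : Q b := by
  have h1 := h a ha b hb
  clear hb
  induction h1 with
  | refl => exact hQa
  | tail _ h2 ih => exact hQ _ h2.1 _ h2.2.1 h2.2.2 ih

lemma Mt.inj (h : Mt G Z σ s) {a b : V} (ha : a ∈ Z) (hb : b ∈ Z) (e : σ a = σ b) : a = b := by
  rw [← h.inv a ha, e, h.inv b hb]

/-- A vertex is not adjacent to the partner of another vertex of its side. -/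
lemma Mt.notN (h : Mt G Z σ s) {a b : V} (ha : a ∈ Z) (hb : b ∈ Z) (e : s b = s a) (hab : a ≠ b) :
    ¬N G a (σ b) := by
  have h1 := h.side b hb
  rintro (rfl | h2)
  · rw [e] at h1
    simp at h1
  · rcases h.uniq a ha _ (h.mem b hb) h2 with h3 | h3
    · rw [h3, e] at h1
      simp at h1
    · exact hab (h.inj ha hb h3.symm)

lemma Mt.side_tri (h : Mt G Z σ s) {a b c : V} (ha : a ∈ Z) (hb : b ∈ Z) (hc : c ∈ Z)
    (hab : G.Adj a b) (hac : G.Adj a c) (hbc : G.Adj b c) : s b = s a := by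
  rcases h.uniq a ha b hb hab with h1 | rfl
  · exact h1
  · rcases h.uniq a ha c hc hac with h1 | rfl
    · exact (h.notN hc ha h1.symm hac.ne' (Or.inr hbc.symm)).elim
    · exact (hbc.ne rfl).elim

/-- In a chair-free graph a vertex that misses one side of a core is complete to every clique
of the other side that it meets. -/
lemma complete (hG : CF G) (h : Mt G Z σ s) (hU : CU G Z s) (hC : Conn G Z) (hT : Tri G Z)
    {u : V} (hu : u ∉ Z) {b : Bool} (hb : ∀ z ∈ Z, s z = b → ¬G.Adj z u) {y y' : V} (hy : y ∈ Z)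
    (hy' : y' ∈ Z) (hyu : G.Adj y u) (hyy : G.Adj y y') (e : s y' = s y) : G.Adj y' u := by
  have key : ∀ y ∈ Z, ∀ y' ∈ Z, G.Adj y u → G.Adj y y' → s y' = s y → ¬G.Adj y' u →
      G.Adj (σ y) (σ y') ∧ ∀ x ∈ Z, G.Adj (σ y) x → s x = s (σ y) → x = σ y' := by
    intro y hy y' hy' hyu hyy e hn
    have h0 : s (σ y) = b := by
      have h1 : s y ≠ b := fun h2 => hb y hy h2 hyu
      rw [h.side y hy]
      cases hh : s y <;> cases b <;> simp_all
    have hN : ∀ x ∈ Z, s x = s (σ y) → ¬N G u x := by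
      rintro x hx e' (rfl | h2)
      · exact hu hx
      · exact hb x hx (e'.trans h0) h2.symm
    have hs : s (σ y') = s (σ y) := by rw [h.side y hy, h.side y' hy', e]
    constructor
    · by_contra h1
      refine hG y (σ y) u y' (σ y') (h.adj y hy) hyu hyy (h.adj y' hy')
        (fun h2 => hN _ (h.mem y hy) rfl h2.symm)
        (fun h2 => h.notN hy' hy e.symm hyy.ne' (Or.inr h2.symm)) (fun h2 => hn h2.symm) ?_
        (hN _ (h.mem y' hy') hs) (h.notN hy hy' e hyy.ne)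
      rintro (h2 | h2)
      · exact hyy.ne (h.inj hy hy' h2)
      · exact h1 h2
    · intro x hx hxy ex
      by_contra h1
      have hx' : s (σ x) = s y := by rw [h.side x hx, ex, h.side y hy, Bool.not_not]
      refine hG y u y' (σ y) x hyu hyy (h.adj y hy) hxy ?_
        (fun h2 => hN _ (h.mem y hy) rfl (Or.inr h2))
        (fun h2 => h.notN hy' hy e.symm hyy.ne' (Or.inr h2)) (hN x hx ex) ?_ ?_
      · rintro (rfl | h2)
        · exact hu hy'
        · exact hn h2.symm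
      · rw [← h.inv x hx]
        exact h.notN hy' (h.mem x hx) (hx'.trans e.symm) fun h2 => h1 (by rw [h2, h.inv x hx])
      · rw [← h.inv x hx]
        exact h.notN hy (h.mem x hx) hx' fun h2 => hxy.ne (by rw [h2, h.inv x hx])
  by_contra hn
  obtain ⟨h1, h2⟩ := key y hy y' hy' hyu hyy e hn
  have hs : s (σ y') = s (σ y) := by rw [h.side y hy, h.side y' hy', e]
  have h3 : ∀ t ∈ Z, G.Adj y t → s t = s y → t = y' := by
    intro t ht hyt et
    have hst : s (σ t) = s (σ y) := by rw [h.side y hy, h.side t ht, et]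
    by_cases htu : G.Adj t u
    · rcases hU y hy t ht y' hy' et e hyt hyy with h4 | h4
      · exact h4
      · have h5 := (key t ht y' hy' htu h4 (e.trans et.symm) hn).1
        rcases hU _ (h.mem y' hy') _ (h.mem y hy) _ (h.mem t ht) hs.symm (hst.trans hs.symm)
          h1.symm h5.symm with h6 | h6
        · exact (hyt.ne (h.inj hy ht h6)).elim
        · exact h.inj ht hy' (h2 _ (h.mem t ht) h6 hst)
    · exact h.inj ht hy' (h2 _ (h.mem t ht) (key y hy t ht hyu hyt et htu).1 hst)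
  have h4 : ∀ z ∈ Z, z = y ∨ z = y' ∨ z = σ y ∨ z = σ y' := by
    intro z hz
    refine hC.ind (Q := fun z => z = y ∨ z = y' ∨ z = σ y ∨ z = σ y') ?_ hy (Or.inl rfl) hz
    intro p hp q hq hpq hQ
    rcases h.uniq p hp q hq hpq with h5 | rfl
    · rcases hQ with rfl | rfl | rfl | rfl
      · exact Or.inr (Or.inl (h3 q hq hpq h5))
      · rcases hU p hp y hy q hq e.symm h5 hyy.symm hpq with h6 | h6
        · exact Or.inl h6.symm
        · exact Or.inr (Or.inl (h3 q hq h6 (h5.trans e)))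
      · exact Or.inr (Or.inr (Or.inr (h2 q hq hpq h5)))
      · rcases hU _ hp _ (h.mem y hy) q hq hs.symm h5 h1.symm hpq with h6 | h6
        · exact Or.inr (Or.inr (Or.inl h6.symm))
        · exact Or.inr (Or.inr (Or.inr (h2 q hq h6 (h5.trans hs))))
    · rcases hQ with rfl | rfl | rfl | rfl
      · simp
      · simp
      · simp [h.inv y hy]
      · simp [h.inv y' hy']
  obtain ⟨p, hp, q, hq, r, hr, hpq, hpr, hqr⟩ := hT
  have e1 := h.side_tri hp hq hr hpq hpr hqr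
  have e2 := h.side_tri hp hr hq hpr hpq hqr.symm
  have e3 := h.side y hy
  have n1 := hpq.ne
  have n2 := hpr.ne
  have n3 := hqr.ne
  have a1 := h4 p hp
  have a2 := h4 q hq
  have a3 := h4 r hr
  clear key h2 h3 h4 hU hC hG hb h
  grind

/-- The counting lemma: a large irredundant set of a core with pairwise unrelated extra vertices
is contained in one side. -/
lemma key_count (h : Mt G Z σ s) (hU : CU G Z s) (hC : Conn G Z) (hT : Tri G Z)
    (hW : ∀ v ∈ S, v ∉ Z → (∃ z ∈ Z, G.Adj z v) ∧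
      ∀ y ∈ Z, ∀ y' ∈ Z, G.Adj y v → G.Adj y y' → s y' = s y → G.Adj y' v)
    (hW1 : ∀ v ∈ S, ∀ v' ∈ S, v ∉ Z → v' ∉ Z → ¬G.Adj v v')
    (hW2 : ∀ v ∈ S, ∀ v' ∈ S, v ∉ Z → v' ∉ Z → ∀ z ∈ Z, G.Adj z v → G.Adj z v' → v = v')
    (hD : irr G S D) (hc : Z.card ≤ 2 * D.card) : ∃ b, ∀ d ∈ D, d ∈ Z ∧ s d = b := by
  classical
  let P : V → V → Prop := fun z v => N G z v ∧ v ≠ σ z
  have Pside : ∀ z ∈ Z, ∀ v ∈ Z, P z v → s v = s z := by
    rintro z hz v hv ⟨rfl | h1, h2⟩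
    · rfl
    · exact (h.uniq z hz v hv h1).resolve_right h2
  have Prefl : ∀ z ∈ Z, P z z := fun z hz => ⟨N.refl z, (h.adj z hz).ne⟩
  have Pof : ∀ z ∈ Z, ∀ v ∈ Z, N G z v → s v = s z → P z v := fun z hz v _ h1 h2 =>
    ⟨h1, fun h3 => by
      rw [h3, h.side z hz] at h2
      simp at h2⟩
  have Pcl : ∀ z ∈ Z, ∀ v, (v ∈ S ∨ v ∈ Z) → ∀ v', (v' ∈ S ∨ v' ∈ Z) → P z v → P z v' →
      N G v v' := by
    intro z hz v hv v' hv' h1 h2
    rcases h1.1 with rfl | h3
    · exact h2.1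
    rcases h2.1 with rfl | h4
    · exact Or.inr h3.symm
    by_cases a1 : v ∈ Z <;> by_cases a2 : v' ∈ Z
    · exact hU z hz v a1 v' a2 (Pside z hz v a1 h1) (Pside z hz v' a2 h2) h3 h4
    · exact Or.inr ((hW v' (hv'.resolve_right a2) a2).2 z hz v a1 h4 h3 (Pside z hz v a1 h1))
    · exact Or.inr ((hW v (hv.resolve_right a1) a1).2 z hz v' a2 h3 h4 (Pside z hz v' a2 h2)).symm
    · exact Or.inl (hW2 v (hv.resolve_right a1) v' (hv'.resolve_right a2) a1 a2 z hz h3 h4)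
  have Ptr : ∀ z ∈ Z, ∀ z' ∈ Z, P z z' → ∀ v, (v ∈ S ∨ v ∈ Z) → P z v → P z' v := by
    intro z hz z' hz' h1 v hv h2
    refine ⟨Pcl z hz z' (Or.inr hz') v hv h1 h2, fun h3 => ?_⟩
    have h4 := Pside z hz v (h3 ▸ h.mem z' hz') h2
    rw [h3, h.side z' hz', Pside z hz z' hz' h1] at h4
    simp at h4
  let A : V → Finset V := fun d => Z.filter fun z => P z d ∧ ∀ d' ∈ D, P z d' → d' = d
  have Acl : ∀ d ∈ D, ∀ z ∈ A d, ∀ z' ∈ Z, G.Adj z z' → s z' = s z → z' ∈ A d := by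
    intro d hd z hz z' hz' h1 h2
    obtain ⟨hz, h3, h4⟩ := mem_filter.1 hz
    exact mem_filter.2 ⟨hz', Ptr z hz z' hz' (Pof z hz z' hz' (Or.inr h1) h2) d
      (Or.inl (hD.1 hd)) h3, fun d' hd' h5 => h4 d' hd' (Ptr z' hz' z hz
        (Pof z' hz' z hz (Or.inr h1.symm) h2.symm) d' (Or.inl (hD.1 hd')) h5)⟩
  have Aem : ∀ d ∈ D, A d = ∅ → d ∈ Z ∧ ∀ d' ∈ D, ¬P (σ d) d' := by
    intro d hd h0
    obtain ⟨p, hp, h1, h2⟩ := hD.2 d hd
    have h3 : ∀ z ∈ Z, P z d → P z p → False := fun z hz a1 a2 => by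
      have : z ∈ A d := mem_filter.2 ⟨hz, a1, fun d' hd' a3 => by_contra fun a4 =>
        h2 d' hd' a4 (Pcl z hz d' (Or.inl (hD.1 hd')) p (Or.inl hp) a3 a2)⟩
      rw [h0] at this
      exact notMem_empty _ this
    by_cases hdZ : d ∈ Z
    · have h4 : p = σ d := by_contra fun a => h3 d hdZ (Prefl d hdZ) ⟨h1, a⟩
      refine ⟨hdZ, fun d' hd' a => h2 d' hd' (fun a1 => a.2 ?_) (h4 ▸ a.1.symm)⟩
      rw [a1, h.inv d hdZ]
    · exfalso
      by_cases hpZ : p ∈ Z
      · exact h3 p hpZ ⟨h1.symm, fun a => hdZ (a ▸ h.mem p hpZ)⟩ (Prefl p hpZ)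
      · rcases h1 with rfl | h1
        · obtain ⟨z, hz, a⟩ := (hW d hp hdZ).1
          have a1 : P z d := ⟨Or.inr a, fun a2 => hdZ (a2 ▸ h.mem z hz)⟩
          exact h3 z hz a1 a1
        · exact hW1 d (hD.1 hd) p hp hdZ hpZ h1
  let τ : V → Finset V := fun d => if A d = ∅ then {d, σ d} else A d
  have τA : ∀ d ∈ D, ∀ d' ∈ D, ∀ z ∈ A d, z ∈ τ d' → d' = d := by
    intro d hd d' hd' z hz hz'
    obtain ⟨hzZ, h3, h4⟩ := mem_filter.1 hz
    by_cases h0 : A d' = ∅
    · simp only [τ, h0, if_true, mem_insert, mem_singleton] at hz'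
      rcases hz' with rfl | rfl
      · exact h4 z hd' (Prefl z hzZ)
      · exact ((Aem d' hd' h0).2 d hd h3).elim
    · simp only [τ, h0, if_false] at hz'
      exact h4 d' hd' (mem_filter.1 hz').2.1
  have τ2 : ∀ d ∈ D, 2 ≤ (τ d).card := by
    intro d hd
    by_cases h0 : A d = ∅
    · simp only [τ, h0, if_true]
      rw [card_pair (h.adj d (Aem d hd h0).1).ne]
    · simp only [τ, h0, if_false]
      obtain ⟨z, hz⟩ := nonempty_iff_ne_empty.2 h0
      obtain ⟨z', hz', a1, a2⟩ := h.nbr z (mem_filter.1 hz).1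
      exact one_lt_card.2 ⟨z, hz, z', Acl d hd z hz z' hz' a1 a2, a1.ne⟩
  have τZ : D.biUnion τ ⊆ Z := by
    refine biUnion_subset.2 fun d hd => ?_
    by_cases h0 : A d = ∅
    · simp only [τ, h0, if_true]
      exact insert_subset (Aem d hd h0).1 (singleton_subset_iff.2 (h.mem d (Aem d hd h0).1))
    · simp only [τ, h0, if_false]
      exact filter_subset _ _
  have τd : (D : Set V).PairwiseDisjoint τ := by
    intro d hd d' hd' hne
    refine disjoint_left.2 fun z hz hz' => hne ?_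
    by_cases h0 : A d = ∅
    · by_cases h0' : A d' = ∅
      · simp only [τ, h0, h0', if_true, mem_insert, mem_singleton] at hz hz'
        have a1 := Aem d hd h0
        have a2 := Aem d' hd' h0'
        rcases hz with rfl | rfl <;> rcases hz' with a | a
        · exact a
        · exact (a2.2 z hd (a ▸ Prefl z a1.1)).elim
        · exact (a1.2 d' hd' (a ▸ Prefl _ (h.mem d a1.1))).elim
        · exact h.inj a1.1 a2.1 a
      · simp only [τ, h0', if_false] at hz'
        exact τA d' hd' d hd z hz' hz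
    · simp only [τ, h0, if_false] at hz
      exact (τA d hd d' hd' z hz hz').symm
  have hsum : ∑ d ∈ D, 2 ≤ ∑ d ∈ D, (τ d).card := sum_le_sum τ2
  have hcard := card_biUnion τd
  have hle := card_le_card τZ
  have hsum2 : ∑ d ∈ D, 2 = 2 * D.card := by simp [mul_comm]
  have hZ : D.biUnion τ = Z := eq_of_subset_of_card_le τZ (by omega)
  have heq : ∀ d ∈ D, 2 = (τ d).card := (sum_eq_sum_iff_of_le τ2).1 (by omega)
  obtain ⟨p, hp, q, hq, r, hr, hpq, hpr, hqr⟩ := hT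
  have hA : ∀ d ∈ D, A d = ∅ := by
    intro d hd
    by_contra h0
    obtain ⟨z, hz⟩ := nonempty_iff_ne_empty.2 h0
    obtain ⟨d', hd', hp'⟩ : ∃ d' ∈ D, p ∈ A d' := by
      refine hC.ind (Q := fun z => ∃ d ∈ D, z ∈ A d) ?_ (mem_filter.1 hz).1 ⟨d, hd, hz⟩ hp
      rintro x hx y hy hxy ⟨e, he, hx'⟩
      rcases h.uniq x hx y hy hxy with a | rfl
      · exact ⟨e, he, Acl e he x hx' y hy hxy a⟩
      · obtain ⟨e', he', a⟩ := mem_biUnion.1 (hZ ▸ hy)
        by_cases h1 : A e' = ∅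
        · have a1 : x ∈ τ e' := by
            simp only [τ, h1, if_true, mem_insert, mem_singleton] at a ⊢
            rcases a with rfl | a
            · exact Or.inr (h.inv x hx).symm
            · exact Or.inl (h.inj hx (Aem e' he' h1).1 a)
          rw [← τA e he e' he' x hx' a1, h1] at hx'
          exact (notMem_empty _ hx').elim
        · simp only [τ, h1, if_false] at a
          exact ⟨e', he', a⟩
    have a1 := Acl d' hd' p hp' q hq hpq (h.side_tri hp hq hr hpq hpr hqr)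
    have a2 := Acl d' hd' p hp' r hr hpr (h.side_tri hp hr hq hpr hpq hqr.symm)
    have a3 := heq d' hd'
    simp only [τ, ne_empty_of_mem hp', if_false] at a3
    have a4 : 2 < (A d').card := two_lt_card_iff.2 ⟨p, q, r, hp', a1, a2, hpq.ne, hpr.ne, hqr.ne⟩
    omega
  have hcov : ∀ z ∈ Z, z ∈ D ∨ (σ z ∈ D ∧ ∀ d ∈ D, ¬P z d) := by
    intro z hz
    obtain ⟨e, he, a⟩ := mem_biUnion.1 (hZ ▸ hz)
    simp only [τ, hA e he, if_true, mem_insert, mem_singleton] at a
    rcases a with rfl | rfl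
    · exact Or.inl he
    · exact Or.inr ⟨by rwa [h.inv e (Aem e he (hA e he)).1], (Aem e he (hA e he)).2⟩
  have hnot : ∀ z ∈ D, σ z ∉ D := fun z hz a =>
    (Aem z hz (hA z hz)).2 _ a (Prefl _ (h.mem z (Aem z hz (hA z hz)).1))
  obtain ⟨d, hd⟩ : ∃ d, d ∈ D := by
    rcases hcov p hp with a | a
    · exact ⟨_, a⟩
    · exact ⟨_, a.1⟩
  refine ⟨s d, fun e he => ⟨(Aem e he (hA e he)).1, ?_⟩⟩
  refine (hC.ind (Q := fun z => z ∈ D ↔ s z = s d) ?_ (Aem d hd (hA d hd)).1 (by simp [hd])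
    (Aem e he (hA e he)).1).1 he
  intro x hx y hy hxy hQ
  rcases h.uniq x hx y hy hxy with a | rfl
  · rw [a, ← hQ]
    constructor
    · intro a1
      exact (hcov x hx).resolve_right fun a2 => a2.2 y a1 (Pof x hx y hy (Or.inr hxy) a)
    · intro a1
      exact (hcov y hy).resolve_right fun a2 => a2.2 x a1 (Pof y hy x hx (Or.inr hxy.symm) a.symm)
  · have a1 : σ x ∈ D ↔ x ∉ D :=
      ⟨fun a1 a2 => hnot x a2 a1, fun a1 => ((hcov x hx).resolve_left a1).1⟩
    rw [h.side x hx, a1, hQ]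
    cases s x <;> cases s d <;> simp

end Pool.Agent.MP_55bf9a_co

end

-- part MP_55bf9a_co.Hard
section

/-!
The structure of a minimal counterexample.
-/

namespace Pool.Agent.MP_55bf9a_co

open Finset

variable {V : Type*} {G : SimpleGraph V} {Z S X : Finset V} {σ : V → V} {s : V → Bool} {k : ℕ}

/-- No irredundant set with at least `k` vertices has an isolated vertex. -/
def NI (G : SimpleGraph V) (S : Finset V) (k : ℕ) : Prop :=
  ∀ X, irr G S X → k ≤ X.card → ∀ x ∈ X, ∃ x' ∈ X, G.Adj x x'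

lemma exists_Mt (hX : irr G S X) (hN : NI G S X.card) :
    ∃ Z σ s, Mt G Z σ s ∧ Z ⊆ S ∧ Z.card = 2 * X.card := by
  classical
  choose! p hpS hp1 hp2 using hX.2
  have h1 : ∀ x ∈ X, p x ∉ X := fun x hx h => by
    by_cases e : p x = x
    · obtain ⟨x', hx', a⟩ := hN X hX le_rfl x hx
      exact hp2 x hx x' hx' a.ne' (Or.inr (by rw [e]; exact a.symm))
    · exact hp2 x hx _ h e (N.refl _)
  have h2 : ∀ x ∈ X, G.Adj x (p x) := fun x hx =>
    (hp1 x hx).resolve_left fun e => h1 x hx (e ▸ hx)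
  have h3 : ∀ x ∈ X, ∀ y ∈ X, G.Adj y (p x) → y = x := fun x hx y hy a =>
    by_contra fun e => hp2 x hx y hy e (Or.inr a)
  have h4 : Set.InjOn p X := fun x hx y hy e => h3 y hy x hx (e ▸ h2 x hx)
  have h5 : ∀ y ∈ X.image p, ∃ x ∈ X, p x = y := fun y hy => mem_image.1 hy
  choose! q hq1 hq2 using h5
  have h6 : ∀ x ∈ X, q (p x) = x := fun x hx =>
    h4 (hq1 _ (mem_image_of_mem p hx)) hx (hq2 _ (mem_image_of_mem p hx))
  have hY : irr G S (X.image p) := by
    refine ⟨fun y hy => ?_, fun y hy => ?_⟩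
    · obtain ⟨x, hx, rfl⟩ := mem_image.1 hy
      exact hpS x hx
    · obtain ⟨x, hx, rfl⟩ := mem_image.1 hy
      refine ⟨x, hX.1 hx, (hp1 x hx).symm, fun y hy e a => ?_⟩
      obtain ⟨x', hx', rfl⟩ := mem_image.1 hy
      exact hp2 x' hx' x hx (fun e' => e (by rw [e'])) a.symm
  refine ⟨X ∪ X.image p, fun z => if z ∈ X then p z else q z, fun z => decide (z ∈ X),
    ⟨?_, ?_, ?_, ?_, ?_, ?_⟩, union_subset hX.1 hY.1, ?_⟩
  · intro z hz
    split_ifs with a
    · exact mem_union_right _ (mem_image_of_mem p a)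
    · exact mem_union_left _ (hq1 z ((mem_union.1 hz).resolve_left a))
  · intro z hz
    by_cases a : z ∈ X
    · simp [a, h1 z a, h6 z a]
    · have b := (mem_union.1 hz).resolve_left a
      simp [a, hq1 z b, hq2 z b]
  · intro z hz
    by_cases a : z ∈ X
    · simp [a, h1 z a]
    · simp [a, hq1 z ((mem_union.1 hz).resolve_left a)]
  · intro z hz
    split_ifs with a
    · exact h2 z a
    · have b := (mem_union.1 hz).resolve_left a
      have := (h2 _ (hq1 z b)).symm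
      rwa [hq2 z b] at this
  · intro z hz z' hz' e
    by_cases a : z ∈ X <;> by_cases a' : z' ∈ X
    · simp [a, a']
    · obtain ⟨x, hx, rfl⟩ := mem_image.1 ((mem_union.1 hz').resolve_left a')
      simp [hx, h3 x hx z a e]
    · obtain ⟨x, hx, rfl⟩ := mem_image.1 ((mem_union.1 hz).resolve_left a)
      simp [a, h6 x hx, h3 x hx z' a' e.symm]
    · simp [a, a']
  · intro z hz
    by_cases a : z ∈ X
    · obtain ⟨x, hx, e⟩ := hN X hX le_rfl z a
      exact ⟨x, mem_union_left _ hx, e, by simp [a, hx]⟩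
    · obtain ⟨y, hy, e⟩ := hN _ hY (card_image_of_injOn h4).ge z ((mem_union.1 hz).resolve_left a)
      refine ⟨y, mem_union_right _ hy, e, ?_⟩
      obtain ⟨x, hx, rfl⟩ := mem_image.1 hy
      simp [a, h1 x hx]
  · rw [card_union_of_disjoint, card_image_of_injOn h4, two_mul]
    refine disjoint_right.2 fun y hy => ?_
    obtain ⟨x, hx, rfl⟩ := mem_image.1 hy
    exact h1 x hx

lemma Mt.card_half (h : Mt G Z σ s) {t : V → Bool} (ht : ∀ z ∈ Z, t (σ z) = t z) :
    2 * (Z.filter fun z => s z = t z).card = Z.card := by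
  rw [two_mul, ← card_filter_add_card_filter_not (s := Z) fun z => s z = t z]
  congr 1
  refine card_nbij' σ σ (fun z hz => ?_) (fun z hz => ?_) (fun z hz => ?_) fun z hz => ?_
  · obtain ⟨a, b⟩ := mem_filter.1 hz
    exact mem_filter.2 ⟨h.mem z a, by simp [h.side z a, ht z a, b]⟩
  · obtain ⟨a, b⟩ := mem_filter.1 hz
    refine mem_filter.2 ⟨h.mem z a, ?_⟩
    rw [h.side z a, ht z a]
    revert b
    cases s z <;> cases t z <;> simp
  · exact h.inv z (mem_filter.1 hz).1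
  · exact h.inv z (mem_filter.1 hz).1

lemma Mt.irr_side (h : Mt G Z σ s) (hS : Z ⊆ S) {t : V → Bool}
    (ht : ∀ x ∈ Z, ∀ y ∈ Z, G.Adj x y → t y = t x) : irr G S (Z.filter fun z => s z = t z) := by
  refine ⟨(filter_subset _ _).trans hS, fun z hz => ?_⟩
  obtain ⟨a, b⟩ := mem_filter.1 hz
  refine ⟨σ z, hS (h.mem z a), Or.inr (h.adj z a), fun y hy e n => ?_⟩
  obtain ⟨a', b'⟩ := mem_filter.1 hy
  refine h.notN a' a ?_ e n
  rw [b, b', ← ht z a _ (h.mem z a) (h.adj z a)]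
  rcases n with rfl | n
  · rfl
  · exact ht y a' _ (h.mem z a) n

/-- In a chair-free graph both sides are unions of cliques. -/
lemma cu_of (hG : CF G) (h : Mt G Z σ s) (hS : Z ⊆ S) (hN : NI G S k) (hk : Z.card = 2 * k) :
    CU G Z s := by
  classical
  have f1 : ∀ z ∈ Z, ∀ b ∈ Z, ∀ c ∈ Z, s b = s z → s c = s z → G.Adj z b → G.Adj z c →
      ¬N G b c → G.Adj (σ z) (σ b) := by
    intro z hz b hb c hc eb ec ab ac n
    by_contra a
    refine hG z (σ z) c b (σ b) (h.adj z hz) ac ab (h.adj b hb)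
      (fun m => h.notN hc hz ec.symm ac.ne' m.symm)
      (fun m => h.notN hb hz eb.symm ab.ne' (Or.inr m.symm)) (fun m => n (Or.inr m.symm)) ?_
      (h.notN hc hb (eb.trans ec.symm) fun e => n (Or.inl e.symm)) (h.notN hz hb eb ab.ne)
    rintro (m | m)
    · exact ab.ne (h.inj hz hb m)
    · exact a m
  have f2 : ∀ z ∈ Z, ∀ b ∈ Z, ∀ c ∈ Z, s b = s z → s c = s z → G.Adj z b → G.Adj z c →
      ¬N G b c → ∀ y ∈ Z, s y = s (σ z) → G.Adj (σ z) y → y = σ b ∨ y = σ c := by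
    intro z hz b hb c hc eb ec ab ac n y hy ey ay
    by_contra a
    push Not at a
    have e : s (σ y) = s z := by rw [h.side y hy, ey, h.side z hz, Bool.not_not]
    have g : ∀ d ∈ Z, s d = s z → y ≠ σ d → ¬N G d y := fun d hd ed m => by
      rw [← h.inv y hy]
      exact h.notN hd (h.mem y hy) (e.trans ed.symm) fun m' => m (by rw [m', h.inv y hy])
    exact hG z b c (σ z) y ab ac (h.adj z hz) ay n
      (fun m => h.notN hb hz eb.symm ab.ne' (Or.inr m))
      (fun m => h.notN hc hz ec.symm ac.ne' (Or.inr m)) (g b hb eb a.1) (g c hc ec a.2)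
      (g z hz rfl ay.ne')
  have f3 : ∀ z ∈ Z, ∀ b ∈ Z, ∀ c ∈ Z, s b = s z → s c = s z → G.Adj z b → G.Adj z c →
      ¬N G b c → ∀ t ∈ Z, s t = s z → G.Adj t b → G.Adj t c := by
    intro z hz b hb c hc eb ec ab ac n t ht et atb
    by_contra a
    have n' : ¬N G t c := by
      rintro (rfl | m)
      · exact n (Or.inr atb.symm)
      · exact a m
    by_cases azt : G.Adj z t
    · rcases f2 z hz t ht c hc et ec azt ac n' _ (h.mem b hb)
        (by rw [h.side b hb, h.side z hz, eb]) (f1 z hz b hb c hc eb ec ab ac n) with m | m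
      · exact atb.ne' (h.inj hb ht m)
      · exact n (Or.inl (h.inj hb hc m))
    · have ne : z ≠ t := fun e => a (e ▸ ac)
      exact hG z (σ z) c b t (h.adj z hz) ac ab atb.symm
        (fun m => h.notN hc hz ec.symm ac.ne' m.symm)
        (fun m => h.notN hb hz eb.symm ab.ne' (Or.inr m.symm)) (fun m => n (Or.inr m.symm))
        (fun m => h.notN ht hz et.symm ne.symm m.symm) (fun m => n' m.symm)
        (fun m => m.elim ne azt)
  intro a ha b hb c hc eb ec ab ac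
  by_contra n
  have sb := h.side b hb
  have sc := h.side c hc
  let t : V → Bool := fun z => if z = b ∨ z = c ∨ z = σ b ∨ z = σ c then s a else !s a
  have ht : ∀ z ∈ Z, t (σ z) = t z := fun z hz => by
    have : (σ z = b ∨ σ z = c ∨ σ z = σ b ∨ σ z = σ c) ↔ (z = b ∨ z = c ∨ z = σ b ∨ z = σ c) := by
      have i1 := h.inv z hz
      have i2 := h.inv b hb
      have i3 := h.inv c hc
      clear f1 f2 f3 hG hN h
      grind
    simp only [t, this]
  have hm : ∀ z, z ∈ Z.filter (fun z => s z = t z) ↔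
      z = b ∨ z = c ∨ (z ∈ Z ∧ s z = !s a ∧ z ≠ σ b ∧ z ≠ σ c) := fun z => by
    simp only [mem_filter, t]
    clear f1 f2 f3 hG hN h ht
    split_ifs with e
    · rcases e with rfl | rfl | rfl | rfl <;> cases hh : s a <;> grind
    · cases hh : s a <;> grind
  have iso : ∀ b' c', (b' = b ∧ c' = c ∨ b' = c ∧ c' = b) →
      ∀ y ∈ Z.filter (fun z => s z = t z), ¬G.Adj b' y := by
    intro b' c' e y hy m
    have hb' : b' ∈ Z ∧ s b' = s a := by
      rcases e with ⟨rfl, -⟩ | ⟨rfl, -⟩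
      exacts [⟨hb, eb⟩, ⟨hc, ec⟩]
    rcases (hm y).1 hy with rfl | rfl | ⟨m1, m2, m3, m4⟩
    · rcases e with ⟨rfl, -⟩ | ⟨rfl, -⟩
      exacts [m.ne rfl, n (Or.inr m.symm)]
    · rcases e with ⟨rfl, -⟩ | ⟨rfl, -⟩
      exacts [n (Or.inr m), m.ne rfl]
    · rcases h.uniq b' hb'.1 y m1 m with m5 | m5
      · rw [m5, hb'.2] at m2
        simp at m2
      · rcases e with ⟨rfl, -⟩ | ⟨rfl, -⟩
        exacts [m3 m5, m4 m5]
  have hI : irr G S (Z.filter fun z => s z = t z) := by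
    refine ⟨(filter_subset _ _).trans hS, fun z hz => ?_⟩
    rcases (hm z).1 hz with rfl | rfl | ⟨m1, m2, m3, m4⟩
    · exact ⟨z, hS hb, N.refl _, fun y hy e m =>
        m.elim e fun m => iso z c (Or.inl ⟨rfl, rfl⟩) y hy m.symm⟩
    · exact ⟨z, hS hc, N.refl _, fun y hy e m =>
        m.elim e fun m => iso z b (Or.inr ⟨rfl, rfl⟩) y hy m.symm⟩
    · have hj := h.mem z m1
      have sj : s (σ z) = s a := by rw [h.side z m1, m2, Bool.not_not]
      by_cases j : G.Adj (σ z) b ∨ G.Adj (σ z) c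
      · have j' : G.Adj (σ z) b ∧ G.Adj (σ z) c := by
          rcases j with j | j
          · exact ⟨j, f3 a ha b hb c hc eb ec ab ac n _ hj sj j⟩
          · exact ⟨f3 a ha c hc b hb ec eb ac ab (fun m => n m.symm) _ hj sj j, j⟩
        refine ⟨z, hS m1, N.refl _, fun y hy e m => m.elim e fun m => ?_⟩
        rcases (hm y).1 hy with rfl | rfl | ⟨l1, l2, l3, l4⟩
        · exact iso y c (Or.inl ⟨rfl, rfl⟩) z hz m
        · exact iso y b (Or.inr ⟨rfl, rfl⟩) z hz m
        · have := f2 _ hj b hb c hc (eb.trans sj.symm) (ec.trans sj.symm) j'.1 j'.2 n y l1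
          rw [h.inv z m1] at this
          exact (this (l2.trans m2.symm) m.symm).elim l3 l4
      · refine ⟨σ z, hS hj, Or.inr (h.adj z m1), fun y hy e m => ?_⟩
        rcases (hm y).1 hy with rfl | rfl | ⟨l1, l2, -, -⟩
        · exact m.elim (fun m => m3 (by rw [m, h.inv z m1])) fun m => j (Or.inl m.symm)
        · exact m.elim (fun m => m4 (by rw [m, h.inv z m1])) fun m => j (Or.inr m.symm)
        · exact h.notN l1 m1 (m2.trans l2.symm) e m
  have hc2 := h.card_half ht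
  obtain ⟨y, hy, m⟩ := hN _ hI (by omega) b ((hm b).2 (Or.inl rfl))
  exact iso b c (Or.inl ⟨rfl, rfl⟩) y hy m

lemma R.symm' {a b : V} (h : R G Z a b) : R G Z b a := by
  induction h with
  | refl => exact .refl
  | tail _ h2 ih => exact .head ⟨h2.2.1, h2.1, h2.2.2.symm⟩ ih

lemma R.of_N {a b : V} (ha : a ∈ Z) (hb : b ∈ Z) (h : N G a b) : R G Z a b := by
  rcases h with rfl | h
  · exact .refl
  · exact .single ⟨ha, hb, h⟩

open Classical in
/-- The component of `a`. -/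
noncomputable def comp (G : SimpleGraph V) (Z : Finset V) (a : V) : Finset V :=
  Z.filter (R G Z a)

lemma mem_comp {a z : V} : z ∈ comp G Z a ↔ z ∈ Z ∧ R G Z a z := by
  simp [comp]

lemma comp_adj {a x y : V} (hx : x ∈ comp G Z a) (hy : y ∈ Z) (h : G.Adj x y) :
    y ∈ comp G Z a :=
  mem_comp.2 ⟨hy, (mem_comp.1 hx).2.tail ⟨(mem_comp.1 hx).1, hy, h⟩⟩

lemma Mt.comp (h : Mt G Z σ s) (a : V) : Mt G (comp G Z a) σ s where
  mem z hz := comp_adj hz (h.mem z (mem_comp.1 hz).1) (h.adj z (mem_comp.1 hz).1)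
  inv z hz := h.inv z (mem_comp.1 hz).1
  side z hz := h.side z (mem_comp.1 hz).1
  adj z hz := h.adj z (mem_comp.1 hz).1
  uniq z hz z' hz' := h.uniq z (mem_comp.1 hz).1 z' (mem_comp.1 hz').1
  nbr z hz := by
    obtain ⟨z', a1, a2, a3⟩ := h.nbr z (mem_comp.1 hz).1
    exact ⟨z', comp_adj hz a1 a2, a2, a3⟩

lemma CU.comp (h : CU G Z s) (a : V) : CU G (comp G Z a) s := fun x hx y hy z hz =>
  h x (mem_comp.1 hx).1 y (mem_comp.1 hy).1 z (mem_comp.1 hz).1

lemma conn_comp (a : V) : Conn G (comp G Z a) := by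
  have key : ∀ b, R G Z a b → R G (comp G Z a) a b := fun b h => by
    induction h with
    | refl => exact .refl
    | tail h1 h2 ih =>
      exact ih.tail ⟨mem_comp.2 ⟨h2.1, h1⟩, mem_comp.2 ⟨h2.2.1, h1.tail h2⟩, h2.2.2⟩
  exact fun x hx y hy => (key x (mem_comp.1 hx).2).symm'.trans (key y (mem_comp.1 hy).2)

/-- Without triangles one can choose an independent transversal of the matching. -/
lemma indep_half (h : Mt G Z σ s) (hU : CU G Z s) (hT : ¬Tri G Z) (W : Finset V) (hW : W ⊆ Z)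
    (hσ : ∀ z ∈ W, σ z ∈ W) (f : V) : ∃ I ⊆ W, f ∉ I ∧ (∀ x ∈ I, ∀ y ∈ I, ¬G.Adj x y) ∧
      ∀ z ∈ W, (σ z ∈ I ↔ z ∉ I) := by
  classical
  induction W using Finset.strongInduction generalizing f with
  | H W ih =>
    rcases W.eq_empty_or_nonempty with rfl | ⟨g, hg⟩
    · exact ⟨∅, Subset.rfl, by simp, by simp, by simp⟩
    wlog hf : f ∈ W generalizing f
    · obtain ⟨I, a1, -, a2⟩ := this g hg
      exact ⟨I, a1, fun a => hf (a1 a), a2⟩
    have hfZ := hW hf
    obtain ⟨r, hr, a1, a2⟩ := h.nbr _ (h.mem f hfZ)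
    have hm : ∀ z, z ∈ (W.erase f).erase (σ f) ↔ z ∈ W ∧ z ≠ f ∧ z ≠ σ f := fun z => by
      simp only [mem_erase]
      tauto
    obtain ⟨I, b1, b2, b3, b4⟩ := ih ((W.erase f).erase (σ f))
      ((erase_subset _ _).trans_ssubset (erase_ssubset hf))
      (fun z hz => hW ((hm z).1 hz).1) (fun z hz => by
        obtain ⟨c1, c2, c3⟩ := (hm z).1 hz
        exact (hm _).2 ⟨hσ z c1, fun e => c3 (by rw [← e, h.inv z (hW c1)]),
          fun e => c2 (h.inj (hW c1) hfZ e)⟩) r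
    have hI : ∀ y ∈ I, ¬G.Adj (σ f) y := fun y hy m => by
      obtain ⟨c1, c2, c3⟩ := (hm y).1 (b1 hy)
      rcases h.uniq _ (h.mem f hfZ) y (hW c1) m with e | e
      · rcases hU _ (h.mem f hfZ) r hr y (hW c1) a2 e a1 m with e' | e'
        · exact b2 (e' ▸ hy)
        · exact hT ⟨_, h.mem f hfZ, r, hr, y, hW c1, a1, m, e'⟩
      · exact c2 (e.trans (h.inv f hfZ))
    have hf1 : f ∉ I := fun a => ((hm f).1 (b1 a)).2.1 rfl
    refine ⟨insert (σ f) I, insert_subset (hσ f hf) fun z hz => ((hm z).1 (b1 hz)).1, ?_, ?_, ?_⟩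
    · simp [hf1, (h.adj f hfZ).ne]
    · intro x hx y hy m
      rcases mem_insert.1 hx with rfl | hx <;> rcases mem_insert.1 hy with rfl | hy
      · exact m.ne rfl
      · exact hI y hy m
      · exact hI x hx m.symm
      · exact b3 x hx y hy m
    · intro z hz
      by_cases c1 : z = f
      · simp [c1, hf1, (h.adj f hfZ).ne]
      by_cases c2 : z = σ f
      · simp [c2, h.inv f hfZ, hf1, (h.adj f hfZ).ne]
      have c3 : σ z ≠ σ f := fun e => c1 (h.inj (hW hz) hfZ e)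
      simp [c2, c3, b4 z ((hm z).2 ⟨hz, c1, c2⟩)]

lemma tri_of (h : Mt G Z σ s) (hU : CU G Z s) (hS : Z ⊆ S) (hN : NI G S k) (hk : Z.card = 2 * k)
    {a : V} (ha : a ∈ Z) : Tri G (comp G Z a) := by
  classical
  by_contra hT
  obtain ⟨I, b1, -, b3, b4⟩ := indep_half (h.comp a) (hU.comp a) hT _ Subset.rfl (h.comp a).mem a
  have hσ : ∀ z ∈ Z, (σ z ∈ comp G Z a ↔ z ∈ comp G Z a) := fun z hz =>
    ⟨fun m => comp_adj m hz (h.adj z hz).symm, (h.comp a).mem z⟩
  let t : V → Bool := fun z => if z ∈ comp G Z a then (if z ∈ I then s z else !s z) else true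
  have ht : ∀ z ∈ Z, t (σ z) = t z := fun z hz => by
    by_cases c : z ∈ comp G Z a
    · by_cases c' : z ∈ I <;> simp [t, hσ z hz, c, c', b4 z c, h.side z hz]
    · simp [t, hσ z hz, c]
  have hm : ∀ z, z ∈ Z.filter (fun z => s z = t z) ↔
      z ∈ I ∨ (z ∈ Z ∧ z ∉ comp G Z a ∧ s z = true) := fun z => by
    by_cases c : z ∈ comp G Z a
    · by_cases c' : z ∈ I <;> simp [t, c, c', (mem_comp.1 c).1]
    · have c' : z ∉ I := fun m => c (b1 m)
      simp [t, c, c']
  have iso : ∀ z ∈ I, ∀ y ∈ Z.filter (fun z => s z = t z), ¬G.Adj z y := fun z hz y hy m => by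
    rcases (hm y).1 hy with c | c
    · exact b3 z hz y c m
    · exact c.2.1 (comp_adj (b1 hz) c.1 m)
  have hI : irr G S (Z.filter fun z => s z = t z) := by
    refine ⟨(filter_subset _ _).trans hS, fun z hz => ?_⟩
    rcases (hm z).1 hz with c | ⟨c1, c2, c3⟩
    · exact ⟨z, hS (mem_filter.1 hz).1, N.refl _, fun y hy e m =>
        m.elim e fun m => iso z c y hy m.symm⟩
    · refine ⟨σ z, hS (h.mem z c1), Or.inr (h.adj z c1), fun y hy e m => ?_⟩
      rcases (hm y).1 hy with d | ⟨d1, -, d3⟩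
      · refine c2 ((hσ z c1).1 ?_)
        rcases m with m | m
        · exact m ▸ b1 d
        · exact comp_adj (b1 d) (h.mem z c1) m
      · exact h.notN d1 c1 (c3.trans d3.symm) e m
  have hc2 := h.card_half ht
  obtain ⟨z, hz⟩ : ∃ z, z ∈ I := by
    by_cases c : a ∈ I
    · exact ⟨a, c⟩
    · exact ⟨_, (b4 a (mem_comp.2 ⟨ha, .refl⟩)).2 c⟩
  obtain ⟨y, hy, m⟩ := hN _ hI (by omega) z ((hm z).2 (Or.inl hz))
  exact iso z hz y hy m

end Pool.Agent.MP_55bf9a_co

end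

-- part MP_55bf9a_co.Main
section

/-!
Undominated vertices, the two inductions, and the translation to induced subgraphs.
-/

namespace Pool.Agent.MP_55bf9a_co

open Finset

variable {V : Type*} {G : SimpleGraph V} {Z S X : Finset V} {σ : V → V} {s : V → Bool} {k : ℕ}

/-- The condition on cores, in internal form. -/
def NoCfg (G : SimpleGraph V) : Prop :=
  ∀ Z σ s, Mt G Z σ s → CU G Z s → Conn G Z → Tri G Z → ∀ u w, u ∉ Z → w ∉ Z →
    (∀ z ∈ Z, s z = true → ¬G.Adj z u) → (∀ z ∈ Z, s z = false → ¬G.Adj z w) →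
    (∃ z ∈ Z, G.Adj z u) → (∃ z ∈ Z, G.Adj z w) → G.Adj u w

/-- Some irredundant set of the maximum size is dominating. -/
lemma exists_dom (hG : CF G) (hc : NoCfg G) (h : Mt G Z σ s) (hS : Z ⊆ S) (hN : NI G S k)
    (hM : ∀ X, irr G S X → X.card ≤ k) (hk : Z.card = 2 * k) :
    ∃ D, irr G S D ∧ dom G S D ∧ D.card = k := by
  classical
  have hU := cu_of hG h hS hN hk
  let K : V → Prop := fun v => v ∈ S ∧ v ∉ Z ∧
    ∀ y ∈ Z, ∀ x ∈ Z, R G Z y x → G.Adj y v → G.Adj x v → s x = s y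
  have Kc : ∀ v, K v → ∀ y ∈ Z, ∀ y' ∈ Z, G.Adj y v → G.Adj y y' → s y' = s y → G.Adj y' v := by
    intro v hv y hy y' hy' a1 a2 a3
    have c1 : y ∈ comp G Z y := mem_comp.2 ⟨hy, .refl⟩
    refine complete hG (h.comp y) (hU.comp y) (conn_comp y) (tri_of h hU hS hN hk hy)
      (fun m => hv.2.1 (mem_comp.1 m).1) (b := !s y) (fun z hz e m => ?_) c1
      (comp_adj c1 hy' a2) a1 a2 a3
    rw [hv.2.2 y hy z (mem_comp.1 hz).1 (mem_comp.1 hz).2 a1 m] at e
    simp at e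
  have alt : ∀ v, K v → ∀ y ∈ Z, G.Adj y v → ∀ x, ∃ y' ∈ Z, N G y y' ∧ s y' = s y ∧
      G.Adj y' v ∧ x ≠ σ y' := by
    intro v hv y hy a x
    by_cases e : x = σ y
    · obtain ⟨y', b1, b2, b3⟩ := h.nbr y hy
      exact ⟨y', b1, Or.inr b2, b3, Kc v hv y hy y' b1 a b2 b3,
        fun m => b2.ne (h.inj hy b1 (e.symm.trans m))⟩
    · exact ⟨y, hy, N.refl y, rfl, a, e⟩
  have tr : ∀ a ∈ Z, ∀ b ∈ Z, ∀ c ∈ Z, s b = s a → s c = s a → N G a b → N G a c → N G b c := by
    rintro a ha b hb c hc' e1 e2 (rfl | m1) m2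
    · exact m2
    rcases m2 with rfl | m2
    · exact Or.inr m1.symm
    · exact hU a ha b hb c hc' e1 e2 m1 m2
  have P0 : ∀ u w, K u → K w → ∀ y ∈ Z, ∀ x ∈ Z, R G Z y x → s x ≠ s y → G.Adj y u →
      G.Adj x w → G.Adj u w := by
    have key : ∀ u w, K u → K w → ∀ y ∈ Z, ∀ x ∈ Z, R G Z y x → s y = false → s x = true →
        G.Adj y u → G.Adj x w → G.Adj u w := by
      intro u w hu hw y hy x hx r e1 e2 a1 a2
      refine hc _ σ s (h.comp y) (hU.comp y) (conn_comp y) (tri_of h hU hS hN hk hy) u w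
        (fun m => hu.2.1 (mem_comp.1 m).1) (fun m => hw.2.1 (mem_comp.1 m).1)
        (fun z hz e m => ?_) (fun z hz e m => ?_) ⟨y, mem_comp.2 ⟨hy, .refl⟩, a1⟩
        ⟨x, mem_comp.2 ⟨hx, r⟩, a2⟩
      · rw [hu.2.2 y hy z (mem_comp.1 hz).1 (mem_comp.1 hz).2 a1 m, e1] at e
        simp at e
      · rw [hw.2.2 x hx z (mem_comp.1 hz).1 (r.symm'.trans (mem_comp.1 hz).2) a2 m, e2] at e
        simp at e
    intro u w hu hw y hy x hx r e a1 a2
    cases e1 : s y
    · exact key u w hu hw y hy x hx r e1 (by simpa [e1] using e) a1 a2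
    · exact (key w u hw hu x hx y hy r.symm' (by simpa [e1] using e) e1 a2 a1).symm
  have P1 : ∀ u w, K u → K w → ∀ y ∈ Z, ∀ x ∈ Z, R G Z y x → s x ≠ s y → G.Adj y u →
      G.Adj x w → ∀ r ∈ Z, G.Adj r u → ¬N G y r → G.Adj r w := by
    intro u w hu hw y hy x hx ryx e a1 a2 r hr a3 n
    by_contra a4
    obtain ⟨y', b1, b2, b3, b4, b5⟩ := alt u hu y hy a1 x
    obtain ⟨r', c1, c2, c3, c4, c5⟩ := alt u hu r hr a3 x
    have ry : R G Z y y' := R.of_N hy b1 b2
    have nx : ∀ p ∈ Z, G.Adj p u → x ≠ σ p → ¬N G p x := fun p hp m1 m2 m3 => by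
      have e1 := hu.2.2 y hy p hp (ryx.trans (R.of_N hp hx m3).symm') a1 m1
      rcases m3 with rfl | m3
      · exact e e1
      · exact (h.uniq p hp x hx m3).elim (fun m => e (m.trans e1)) m2
    refine hG u y' r' w x b4.symm c4.symm (P0 u w hu hw y hy x hx ryx e a1 a2) a2.symm
      (fun m => n ?_) (fun m => e ?_) (fun m => a4 ?_) (nx y' b1 b4 b5) (nx r' c1 c4 c5) ?_
    · have e1 := hu.2.2 y' b1 r' c1 (R.of_N b1 c1 m) b4 c4
      have m1 := tr y' b1 y hy r' c1 b3.symm e1 b2.symm m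
      exact tr r' c1 y hy r hr (b3.symm.trans e1.symm) c3.symm m1.symm c2.symm
    · exact (hw.2.2 y' b1 x hx (ry.symm'.trans ryx) m a2).trans b3
    · rcases c2 with rfl | c2
      · exact m
      · exact Kc w hw r' c1 r hr m c2.symm c3.symm
    · rintro (rfl | m)
      · exact hu.2.1 hx
      · exact e (hu.2.2 y hy x hx ryx a1 m.symm)
  have P2 : ∀ u w, K u → K w → ∀ y ∈ Z, ∀ x ∈ Z, R G Z y x → s x ≠ s y → G.Adj y u →
      G.Adj x w → ∃ r ∈ Z, G.Adj r u ∧ G.Adj r w ∧ ¬R G Z y r := by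
    intro u w hu hw y hy x hx ryx e a1 a2
    by_contra n
    have n' : ∀ r ∈ Z, G.Adj r u → ¬G.Adj r w := fun r hr m1 m2 => n ⟨r, hr, m1, m2, fun m3 =>
      e ((hw.2.2 x hx r hr (ryx.symm'.trans m3) a2 m2).symm.trans (hu.2.2 y hy r hr m3 a1 m1))⟩
    have g1 : ∀ r ∈ Z, G.Adj r u → s r = s y := fun r hr m =>
      hu.2.2 y hy r hr (R.of_N hy hr (by_contra fun m' =>
        n' r hr m (P1 u w hu hw y hy x hx ryx e a1 a2 r hr m m'))) a1 m
    have g2 : ∀ r ∈ Z, G.Adj r w → s r = s x := fun r hr m =>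
      hw.2.2 x hx r hr (R.of_N hx hr (by_contra fun m' =>
        n' r hr (P1 w u hw hu x hx y hy ryx.symm' (Ne.symm e) a2 a1 r hr m m') m)) a2 m
    have hI := h.irr_side hS (t := fun _ => s x) fun _ _ _ _ _ => rfl
    have hc2 := h.card_half (t := fun _ => s x) fun _ _ => rfl
    have hw' : w ∉ Z.filter fun z => s z = s x := fun m => hw.2.1 (mem_filter.1 m).1
    have hI' : irr G S (insert w (Z.filter fun z => s z = s x)) := by
      refine ⟨insert_subset hw.1 hI.1, fun z hz => ?_⟩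
      rcases mem_insert.1 hz with rfl | hz
      · refine ⟨u, hu.1, Or.inr (P0 u z hu hw y hy x hx ryx e a1 a2).symm, fun p hp ne m => ?_⟩
        obtain ⟨d1, d2⟩ := mem_filter.1 ((mem_insert.1 hp).resolve_left ne)
        rcases m with rfl | m
        · exact hu.2.1 d1
        · exact e (d2.symm.trans (g1 p d1 m))
      · obtain ⟨d1, d2⟩ := mem_filter.1 hz
        refine ⟨σ z, hS (h.mem z d1), Or.inr (h.adj z d1), fun p hp ne m => ?_⟩
        rcases mem_insert.1 hp with rfl | hp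
        · rcases m with rfl | m
          · exact hw.2.1 (h.mem z d1)
          · have := g2 _ (h.mem z d1) m.symm
            rw [h.side z d1, d2] at this
            simp at this
        · exact h.notN (mem_filter.1 hp).1 d1 (d2.trans (mem_filter.1 hp).2.symm) ne m
    have := hM _ hI'
    rw [card_insert_of_notMem hw'] at this
    omega
  let t : V → Bool := fun z => decide (∃ v, K v ∧ ∃ x ∈ Z, R G Z z x ∧ s x = true ∧ G.Adj x v)
  have htR : ∀ x y, R G Z x y → t y = t x := fun x y r => by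
    simp only [t, decide_eq_decide]
    exact ⟨fun ⟨v, a, p, b, c, d⟩ => ⟨v, a, p, b, r.trans c, d⟩,
      fun ⟨v, a, p, b, c, d⟩ => ⟨v, a, p, b, r.symm'.trans c, d⟩⟩
  have ht : ∀ x ∈ Z, ∀ y ∈ Z, G.Adj x y → t y = t x := fun x hx y hy a =>
    htR x y (.single ⟨hx, hy, a⟩)
  have hI := h.irr_side hS ht
  have hc2 := h.card_half fun z hz => ht z hz _ (h.mem z hz) (h.adj z hz)
  refine ⟨_, hI, fun v hv => ?_, by omega⟩
  by_contra n
  push Not at n
  have n1 : ∀ z ∈ Z, G.Adj z v → s z ≠ t z := fun z hz a e =>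
    n z (mem_filter.2 ⟨hz, e⟩) (Or.inr a)
  have hvZ : v ∉ Z := fun hz => by
    have e1 := n1 _ (h.mem v hz) (h.adj v hz).symm
    have e2 : s v ≠ t v := fun e => n v (mem_filter.2 ⟨hz, e⟩) (N.refl v)
    rw [h.side v hz, ht v hz _ (h.mem v hz) (h.adj v hz)] at e1
    revert e1 e2
    cases s v <;> cases t v <;> simp
  have hK : K v := ⟨hv, hvZ, fun y hy x hx r a1 a2 => by
    have e1 := n1 y hy a1
    have e2 := n1 x hx a2
    rw [htR y x r] at e2
    revert e1 e2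
    cases s x <;> cases s y <;> cases t y <;> simp⟩
  have con : ∀ y ∈ Z, G.Adj y v → ∃ w, K w ∧ ∃ x ∈ Z, R G Z y x ∧ s x ≠ s y ∧ G.Adj x w := by
    intro y hy a
    have e1 := n1 y hy a
    cases e : s y
    · obtain ⟨w, b1, x, b2, b3, b4, b5⟩ : ∃ v, K v ∧ ∃ x ∈ Z, R G Z y x ∧ s x = true ∧
          G.Adj x v := by simpa [e, t] using e1
      exact ⟨w, b1, x, b2, b3, by simp [b4], b5⟩
    · exact (e1 (e.trans (decide_eq_true ⟨v, hK, y, hy, .refl, e, a⟩).symm)).elim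
  obtain ⟨y, hy, a1⟩ : ∃ y ∈ Z, G.Adj y v := by
    by_contra m
    push Not at m
    have hv' : v ∉ Z.filter fun z => s z = t z := fun m => hvZ (mem_filter.1 m).1
    have hI' : irr G S (insert v (Z.filter fun z => s z = t z)) := by
      refine ⟨insert_subset hv hI.1, fun z hz => ?_⟩
      rcases mem_insert.1 hz with rfl | hz
      · exact ⟨z, hv, N.refl z, fun p hp ne => n p ((mem_insert.1 hp).resolve_left ne)⟩
      · obtain ⟨d1, d2⟩ := mem_filter.1 hz
        refine ⟨σ z, hS (h.mem z d1), Or.inr (h.adj z d1), fun p hp ne a => ?_⟩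
        rcases mem_insert.1 hp with rfl | hp
        · rcases a with rfl | a
          · exact hvZ (h.mem z d1)
          · exact m _ (h.mem z d1) a.symm
        · obtain ⟨d3, d4⟩ := mem_filter.1 hp
          refine h.notN d3 d1 ?_ ne a
          rw [d2, d4, htR p _ (R.of_N d3 (h.mem z d1) a) |>.symm,
            ht z d1 _ (h.mem z d1) (h.adj z d1)]
    have := hM _ hI'
    rw [card_insert_of_notMem hv'] at this
    omega
  obtain ⟨w, hw, x, hx, ryx, e, a2⟩ := con y hy a1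
  obtain ⟨r, hr, b1, b2, b3⟩ := P2 v w hK hw y hy x hx ryx e a1 a2
  obtain ⟨z, hz, r', hr', rr, e', a3⟩ := con r hr b1
  exact e (hz.2.2 y hy x hx ryx
    (P1 v z hK hz r hr r' hr' rr e' b1 a3 y hy a1 fun m => b3 (R.of_N hr hy m).symm')
    (P1 w z hw hz r hr r' hr' rr e' b2 a3 x hx a2 fun m => b3 (ryx.trans (R.of_N hr hx m).symm')))

open Classical in
lemma irr_erase (hX : irr G S X) {x : V} (hx : x ∈ X) (hi : ∀ y ∈ X, ¬G.Adj x y) :
    irr G (S.filter fun v => ¬N G x v) (X.erase x) := by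
  refine ⟨fun y hy => mem_filter.2 ⟨hX.1 (mem_of_mem_erase hy), fun m => m.elim
    (ne_of_mem_erase hy).symm (hi y (mem_of_mem_erase hy))⟩, fun y hy => ?_⟩
  obtain ⟨p, a1, a2, a3⟩ := hX.2 y (mem_of_mem_erase hy)
  exact ⟨p, mem_filter.2 ⟨a1, a3 x hx (ne_of_mem_erase hy).symm⟩, a2,
    fun z hz => a3 z (mem_of_mem_erase hz)⟩

lemma main_dom (hG : CF G) (hc : NoCfg G) (S : Finset V) :
    ∀ X, irr G S X → ∃ D, irr G S D ∧ dom G S D ∧ X.card ≤ D.card := by
  classical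
  induction S using Finset.strongInduction with
  | H S ih =>
    intro X₀ hX₀
    obtain ⟨X, hX, hM⟩ := exists_max_image (S.powerset.filter (irr G S)) card
      ⟨X₀, mem_filter.2 ⟨mem_powerset.2 hX₀.1, hX₀⟩⟩
    replace hX := (mem_filter.1 hX).2
    replace hM : ∀ Y, irr G S Y → Y.card ≤ X.card := fun Y hY =>
      hM Y (mem_filter.2 ⟨mem_powerset.2 hY.1, hY⟩)
    by_cases hN : NI G S X.card
    · obtain ⟨Z, σ, s, h, hS, hk⟩ := exists_Mt hX hN
      obtain ⟨D, a1, a2, a3⟩ := exists_dom hG hc h hS hN hM hk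
      exact ⟨D, a1, a2, a3 ▸ hM X₀ hX₀⟩
    · unfold NI at hN
      push Not at hN
      obtain ⟨Y, hY, hk, x, hx, hi⟩ := hN
      obtain ⟨D, a1, a2, a3⟩ := ih _ (filter_ssubset.2 ⟨x, hY.1 hx, fun m => m (N.refl x)⟩) _
        (irr_erase hY hx hi)
      have b1 : ∀ d ∈ D, ¬N G x d := fun d hd => (mem_filter.1 (a1.1 hd)).2
      refine ⟨insert x D, ⟨insert_subset (hY.1 hx) (a1.1.trans (filter_subset _ _)),
        fun d hd => ?_⟩, fun v hv => ?_, ?_⟩
      · rcases mem_insert.1 hd with rfl | hd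
        · exact ⟨d, hY.1 hx, N.refl d, fun y hy e m =>
            b1 y ((mem_insert.1 hy).resolve_left e) m.symm⟩
        · obtain ⟨p, c1, c2, c3⟩ := a1.2 d hd
          refine ⟨p, (mem_filter.1 c1).1, c2, fun y hy e => ?_⟩
          rcases mem_insert.1 hy with rfl | hy
          · exact (mem_filter.1 c1).2
          · exact c3 y hy e
      · by_cases m : N G x v
        · exact ⟨x, mem_insert_self _ _, m⟩
        · obtain ⟨d, c1, c2⟩ := a2 v (mem_filter.2 ⟨hv, m⟩)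
          exact ⟨d, mem_insert_of_mem c1, c2⟩
      · rw [card_insert_of_notMem fun m => b1 x m (N.refl x)]
        rw [card_erase_of_mem hx] at a3
        have := hM X₀ hX₀
        omega

lemma main_ind (hG : CF G) (hc : ∀ Z σ s, Mt G Z σ s → CU G Z s → Conn G Z → ¬Tri G Z)
    (S : Finset V) : ∀ X, irr G S X →
      ∃ I ⊆ S, (∀ x ∈ I, ∀ y ∈ I, ¬G.Adj x y) ∧ X.card ≤ I.card := by
  classical
  induction S using Finset.strongInduction with
  | H S ih =>
    intro X hX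
    by_cases hN : NI G S X.card
    · obtain ⟨Z, σ, s, h, hS, hk⟩ := exists_Mt hX hN
      have hU := cu_of hG h hS hN hk
      rcases Z.eq_empty_or_nonempty with rfl | ⟨a, ha⟩
      · exact ⟨∅, empty_subset _, by simp, by simp at hk; simp [hk]⟩
      · exact (hc _ σ s (h.comp a) (hU.comp a) (conn_comp a) (tri_of h hU hS hN hk ha)).elim
    · unfold NI at hN
      push Not at hN
      obtain ⟨Y, hY, hk, x, hx, hi⟩ := hN
      obtain ⟨D, a1, a2, a3⟩ := ih _ (filter_ssubset.2 ⟨x, hY.1 hx, fun m => m (N.refl x)⟩) _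
        (irr_erase hY hx hi)
      have b1 : ∀ d ∈ D, ¬N G x d := fun d hd => (mem_filter.1 (a1 hd)).2
      refine ⟨insert x D, insert_subset (hY.1 hx) (a1.trans (filter_subset _ _)),
        fun a ha b hb m => ?_, ?_⟩
      · rcases mem_insert.1 ha with rfl | ha' <;> rcases mem_insert.1 hb with rfl | hb'
        · exact m.ne rfl
        · exact b1 b hb' (Or.inr m)
        · exact b1 a ha' (Or.inr m.symm)
        · exact a2 a ha' b hb' m
      · rw [card_insert_of_notMem fun m => b1 x m (N.refl x)]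
        rw [card_erase_of_mem hx] at a3
        omega

/-- A core with two non-adjacent extra vertices has no large irredundant dominating set. -/
lemma easy_dom (hG : CF G) (hc : ¬NoCfg G) : ∃ S X, irr G S X ∧
    ∀ D, irr G S D → dom G S D → D.card < X.card := by
  classical
  unfold NoCfg at hc
  push Not at hc
  obtain ⟨Z, σ, s, h, hU, hC, hT, u, w, hu, hw, a1, a2, a3, a4, n⟩ := hc
  have hm : ∀ v ∈ insert u (insert w Z), v ∉ Z → v = u ∨ v = w := fun v hv m => by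
    simpa [m] using hv
  have hS : Z ⊆ insert u (insert w Z) := (subset_insert _ _).trans (subset_insert _ _)
  have hc2 := h.card_half (t := fun _ => true) fun _ _ => rfl
  refine ⟨insert u (insert w Z), _, h.irr_side hS (t := fun _ => true) fun _ _ _ _ _ => rfl,
    fun D hD hd => ?_⟩
  by_contra hlt
  obtain ⟨b, hb⟩ := key_count h hU hC hT (S := insert u (insert w Z)) (D := D)
    (fun v hv m => by
      rcases hm v hv m with rfl | rfl
      · exact ⟨a3, fun y hy y' hy' => complete hG h hU hC hT m a1 hy hy'⟩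
      · exact ⟨a4, fun y hy y' hy' => complete hG h hU hC hT m a2 hy hy'⟩)
    (fun v hv v' hv' m m' e => by
      rcases hm v hv m with rfl | rfl <;> rcases hm v' hv' m' with rfl | rfl
      exacts [e.ne rfl, n e, n e.symm, e.ne rfl])
    (fun v hv v' hv' m m' z hz e e' => by
      rcases hm v hv m with rfl | rfl <;> rcases hm v' hv' m' with rfl | rfl
      · rfl
      · cases c : s z
        exacts [(a2 z hz c e').elim, (a1 z hz c e).elim]
      · cases c : s z
        exacts [(a2 z hz c e).elim, (a1 z hz c e').elim]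
      · rfl) hD (by omega)
  cases b
  · obtain ⟨d, c1, c2⟩ := hd w (by simp)
    exact c2.elim (fun e => hw (e ▸ (hb d c1).1)) (a2 d (hb d c1).1 (hb d c1).2)
  · obtain ⟨d, c1, c2⟩ := hd u (by simp)
    exact c2.elim (fun e => hu (e ▸ (hb d c1).1)) (a1 d (hb d c1).1 (hb d c1).2)

/-- A core has a large irredundant dominating set and no large independent set. -/
lemma easy_ind (h : Mt G Z σ s) (hU : CU G Z s) (hC : Conn G Z) (hT : Tri G Z) :
    ∃ D, irr G Z D ∧ dom G Z D ∧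
      ∀ I ⊆ Z, (∀ x ∈ I, ∀ y ∈ I, ¬G.Adj x y) → I.card < D.card := by
  classical
  have hc2 := h.card_half (t := fun _ => true) fun _ _ => rfl
  refine ⟨_, h.irr_side Subset.rfl (t := fun _ => true) fun _ _ _ _ _ => rfl, fun v hv => ?_,
    fun I hI hi => ?_⟩
  · cases c : s v
    · exact ⟨σ v, mem_filter.2 ⟨h.mem v hv, by simp [h.side v hv, c]⟩, Or.inr (h.adj v hv).symm⟩
    · exact ⟨v, mem_filter.2 ⟨hv, c⟩, N.refl v⟩
  by_contra hlt
  obtain ⟨b, hb⟩ := key_count h hU hC hT (S := Z) (D := I) (fun v hv m => (m hv).elim)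
    (fun v hv _ _ m => (m hv).elim) (fun v hv _ _ m => (m hv).elim)
    ⟨hI, fun x hx => ⟨x, hI hx, N.refl x, fun y hy e m => m.elim e (hi y hy x hx)⟩⟩ (by omega)
  have hc3 := h.card_half (t := fun _ => b) fun _ _ => rfl
  have e : I = Z.filter fun z => s z = b :=
    eq_of_subset_of_card_le (fun d hd => mem_filter.2 (hb d hd)) (by omega)
  obtain ⟨p, hp, -⟩ := hT
  obtain ⟨q, hq, eq⟩ : ∃ q ∈ Z, s q = b := by
    by_cases c : s p = b
    · exact ⟨p, hp, c⟩
    · exact ⟨σ p, h.mem p hp, by rw [h.side p hp]; revert c; cases s p <;> cases b <;> simp⟩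
  obtain ⟨r, hr, c1, c2⟩ := h.nbr q hq
  exact hi q (e ▸ mem_filter.2 ⟨hq, eq⟩) r (e ▸ mem_filter.2 ⟨hr, c2.trans eq⟩) c1

end Pool.Agent.MP_55bf9a_co

end

-- part MP_55bf9a_co.Bridge
section

/-!
Translation to induced subgraphs.
-/

namespace Pool.Agent.MP_55bf9a_co

open Finset

variable {V : Type*} {G : SimpleGraph V}

lemma mem_closedNbhd {X : Set V} {v : V} : v ∈ closedNbhd G X ↔ ∃ x ∈ X, N G x v := by
  constructor
  · rintro (h | ⟨x, h1, h2⟩)
    exacts [⟨v, h, N.refl v⟩, ⟨x, h1, Or.inr h2⟩]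
  · rintro ⟨x, h1, rfl | h2⟩
    exacts [Or.inl h1, Or.inr ⟨x, h1, h2⟩]

lemma isIrredundant_iff {X : Set V} :
    IsIrredundant G X ↔ ∀ x ∈ X, ∃ p, N G x p ∧ ∀ y ∈ X, y ≠ x → ¬N G y p := by
  simp [IsIrredundant, Set.Nonempty, mem_closedNbhd]

lemma isDom_iff {X : Set V} : IsDom G X ↔ ∀ v, ∃ x ∈ X, N G x v := by
  simp [IsDom, Set.eq_univ_iff_forall, mem_closedNbhd]

lemma minimal_iff' {X : Set V} : Minimal (IsDom G) X ↔ IsIrredundant G X ∧ IsDom G X := by
  rw [isIrredundant_iff]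
  constructor
  · intro h
    refine ⟨fun x hx => ?_, h.1⟩
    have h1 : ¬IsDom G (X \ {x}) := fun m => (h.2 m Set.sdiff_subset hx).2 rfl
    rw [isDom_iff] at h1
    push Not at h1
    obtain ⟨p, hp⟩ := h1
    obtain ⟨y, hy, a⟩ := isDom_iff.1 h.1 p
    have e : y = x := by_contra fun e => hp y ⟨hy, e⟩ a
    exact ⟨p, e ▸ a, fun z hz e' => hp z ⟨hz, e'⟩⟩
  · rintro ⟨h1, h2⟩
    refine ⟨h2, fun Y hY hYX x hx => ?_⟩
    obtain ⟨p, -, a⟩ := h1 x hx
    obtain ⟨y, hy, b⟩ := isDom_iff.1 hY p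
    have e : y = x := by_contra fun e => a y (hYX hy) e b
    exact e ▸ hy

lemma N_induce {S : Set V} {a b : S} : N (G.induce S) a b ↔ N G a b := by
  simp [N, Subtype.ext_iff]

lemma sSup_induce [Finite V] (S : Finset V) {P : Set (S : Set V) → Prop} {Q : Finset V → Prop}
    (hQ : ∀ X, Q X → X ⊆ S) (h : ∀ (X : Finset V), X ⊆ S → (P (Subtype.val ⁻¹' X) ↔ Q X)) :
    {n | ∃ X, P X ∧ X.ncard = n} = {n | ∃ X, Q X ∧ X.card = n} := by
  have h1 : ∀ X : Finset V, X ⊆ S →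
      (Subtype.val ⁻¹' (X : Set V) : Set (S : Set V)).ncard = X.card := fun X hX => by
    rw [← Set.ncard_image_of_injective _ Subtype.val_injective, Subtype.image_preimage_coe,
      Set.inter_eq_right.2 (coe_subset.2 hX), Set.ncard_coe_finset]
  ext n
  constructor
  · rintro ⟨X, hX, rfl⟩
    have h2 : (Subtype.val '' X).toFinite.toFinset ⊆ S := fun v hv => by
      obtain ⟨x, -, rfl⟩ := (Set.Finite.mem_toFinset _).1 hv
      exact x.2
    have h3 : Subtype.val ⁻¹' ((Subtype.val '' X).toFinite.toFinset : Set V) = X := by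
      rw [Set.Finite.coe_toFinset, Set.preimage_image_eq _ Subtype.val_injective]
    exact ⟨_, (h _ h2).1 (by rwa [h3]), by rw [← h1 _ h2, h3]⟩
  · rintro ⟨X, hX, rfl⟩
    exact ⟨_, (h X (hQ X hX)).2 hX, h1 X (hQ X hX)⟩

lemma irr_induce {S X : Finset V} (hX : X ⊆ S) :
    IsIrredundant (G.induce (S : Set V)) (Subtype.val ⁻¹' X) ↔ irr G S X := by
  rw [isIrredundant_iff]
  constructor
  · refine fun h => ⟨hX, fun x hx => ?_⟩
    obtain ⟨p, a, b⟩ := h ⟨x, hX hx⟩ hx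
    exact ⟨p, p.2, N_induce.1 a, fun y hy e m =>
      b ⟨y, hX hy⟩ hy (fun e' => e (congrArg Subtype.val e')) (N_induce.2 m)⟩
  · intro h x hx
    obtain ⟨p, a, b, c⟩ := h.2 x hx
    exact ⟨⟨p, a⟩, N_induce.2 b, fun y hy e m => c y hy (fun e' => e (Subtype.ext e'))
      (N_induce.1 m)⟩

lemma dom_induce {S X : Finset V} (hX : X ⊆ S) :
    IsDom (G.induce (S : Set V)) (Subtype.val ⁻¹' X) ↔ dom G S X := by
  rw [isDom_iff]
  constructor
  · intro h v hv
    obtain ⟨x, a, b⟩ := h ⟨v, hv⟩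
    exact ⟨x, a, N_induce.1 b⟩
  · intro h v
    obtain ⟨x, a, b⟩ := h v v.2
    exact ⟨⟨x, hX a⟩, a, N_induce.2 b⟩

variable [Finite V]

lemma upperIrr_induce (S : Finset V) :
    upperIrr (G.induce (S : Set V)) = sSup {n | ∃ X, irr G S X ∧ X.card = n} :=
  congrArg sSup (sSup_induce S (fun _ h => h.1) fun _ => irr_induce)

lemma upperDom_induce (S : Finset V) :
    upperDom (G.induce (S : Set V)) = sSup {n | ∃ X, (irr G S X ∧ dom G S X) ∧ X.card = n} :=
  congrArg sSup (sSup_induce S (fun _ h => h.1.1) fun _ hX => by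
    rw [minimal_iff', irr_induce hX, dom_induce hX])

lemma indepNum_induce (S : Finset V) : (G.induce (S : Set V)).indepNum =
    sSup {n | ∃ X, (X ⊆ S ∧ ∀ x ∈ X, ∀ y ∈ X, ¬G.Adj x y) ∧ X.card = n} := by
  rw [← sSup_induce S (P := (G.induce (S : Set V)).IsIndepSet) (fun _ h => h.1) fun X hX => ?_]
  · refine congrArg sSup (Set.ext fun n => ⟨?_, ?_⟩)
    · rintro ⟨X, a, rfl⟩
      exact ⟨X, a, Set.ncard_coe_finset X⟩
    · rintro ⟨X, a, rfl⟩
      exact ⟨X.toFinite.toFinset, by simpa using a, (Set.ncard_eq_toFinset_card X).symm⟩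
  · constructor
    · exact fun h => ⟨hX, fun x hx y hy m => h (x := ⟨x, hX hx⟩) hx (y := ⟨y, hX hy⟩) hy
        (fun e => m.ne (congrArg Subtype.val e)) m⟩
    · exact fun h x hx y hy _ m => h.2 x hx y hy m

lemma card_bdd (Q : Finset V → Prop) : BddAbove {n | ∃ X, Q X ∧ X.card = n} := by
  have := Fintype.ofFinite V
  exact ⟨Fintype.card V, fun _ ⟨X, _, e⟩ => e ▸ X.card_le_univ⟩

lemma le_sSup' {Q : Finset V → Prop} {X : Finset V} (h : Q X) :
    X.card ≤ sSup {n | ∃ X, Q X ∧ X.card = n} := le_csSup (card_bdd Q) ⟨X, h, rfl⟩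

lemma exists_sSup {Q : Finset V → Prop} {X : Finset V} (h : Q X) :
    ∃ Y, Q Y ∧ Y.card = sSup {n | ∃ X, Q X ∧ X.card = n} :=
  Nat.sSup_mem (s := {n | ∃ X, Q X ∧ X.card = n}) ⟨_, X, h, rfl⟩ (card_bdd Q)

lemma exists_max_indep (S : Finset V) : ∃ I, (irr G S I ∧ dom G S I) ∧
    I.card = (G.induce (S : Set V)).indepNum := by
  classical
  rw [indepNum_induce]
  obtain ⟨I, hI, e⟩ := exists_sSup (Q := fun X => X ⊆ S ∧ ∀ x ∈ X, ∀ y ∈ X, ¬G.Adj x y) (X := ∅)
    ⟨empty_subset _, by simp⟩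
  refine ⟨I, ⟨⟨hI.1, fun x hx => ⟨x, hI.1 hx, N.refl x, fun y hy e m =>
    m.elim e (hI.2 y hy x hx)⟩⟩, fun v hv => ?_⟩, e⟩
  by_contra n
  push Not at n
  have := le_sSup' (Q := fun X => X ⊆ S ∧ ∀ x ∈ X, ∀ y ∈ X, ¬G.Adj x y) (X := insert v I)
    ⟨insert_subset hv hI.1, fun a ha b hb m => by
      rcases mem_insert.1 ha with rfl | ha' <;> rcases mem_insert.1 hb with rfl | hb'
      exacts [m.ne rfl, n b hb' (Or.inr m.symm), n a ha' (Or.inr m), hI.2 a ha' b hb' m]⟩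
  rw [card_insert_of_notMem fun m => n v m (N.refl v)] at this
  omega

lemma forall_set {P : Set V → Prop} : (∀ S, P S) ↔ ∀ S : Finset V, P S :=
  ⟨fun h _ => h _, fun h S => by simpa using h S.toFinite.toFinset⟩

lemma perfect_iff (hG : CF G) :
    (∀ S : Set V, upperDom (G.induce S) = upperIrr (G.induce S)) ↔ NoCfg G := by
  rw [forall_set]
  constructor
  · intro h
    by_contra n
    obtain ⟨S, X, a1, a2⟩ := easy_dom hG n
    obtain ⟨I, hI, -⟩ := exists_max_indep (G := G) S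
    obtain ⟨D, b1, b2⟩ := exists_sSup (Q := fun X => irr G S X ∧ dom G S X) hI
    have c1 := a2 D b1.1 b1.2
    have c2 := le_sSup' a1
    have c3 := h S
    rw [upperDom_induce, upperIrr_induce] at c3
    omega
  · intro h S
    rw [upperDom_induce, upperIrr_induce]
    obtain ⟨I, hI, -⟩ := exists_max_indep (G := G) S
    obtain ⟨D, b1, b2⟩ := exists_sSup (Q := fun X => irr G S X ∧ dom G S X) hI
    obtain ⟨X, a1, a2⟩ := exists_sSup hI.1
    obtain ⟨E, c1, c2, c3⟩ := main_dom hG h S X a1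
    have d1 := le_sSup' b1.1
    have d2 := le_sSup' (Q := fun X => irr G S X ∧ dom G S X) ⟨c1, c2⟩
    omega

lemma imperfect_iff (hG : CF G) :
    ¬(∀ S : Set V, (G.induce S).indepNum = upperDom (G.induce S)) ↔
      ∃ Z σ s, Mt G Z σ s ∧ CU G Z s ∧ Conn G Z ∧ Tri G Z := by
  rw [forall_set]
  constructor
  · intro h
    by_contra n
    push Not at n
    refine h fun S => ?_
    obtain ⟨I, hI, e⟩ := exists_max_indep (G := G) S
    obtain ⟨D, b1, b2⟩ := exists_sSup (Q := fun X => irr G S X ∧ dom G S X) hI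
    obtain ⟨J, c1, c2, c3⟩ := main_ind hG n S D b1.1
    have d1 := le_sSup' (Q := fun X => irr G S X ∧ dom G S X) hI
    have d2 := le_sSup' (Q := fun X => X ⊆ S ∧ ∀ x ∈ X, ∀ y ∈ X, ¬G.Adj x y) ⟨c1, c2⟩
    rw [← indepNum_induce] at d2
    rw [upperDom_induce]
    omega
  · rintro ⟨Z, σ, s, h, hU, hC, hT⟩ n
    obtain ⟨D, a1, a2, a3⟩ := easy_ind h hU hC hT
    obtain ⟨I, hI, e⟩ := exists_sSup (Q := fun X => X ⊆ Z ∧ ∀ x ∈ X, ∀ y ∈ X, ¬G.Adj x y)
      (X := ∅) ⟨empty_subset _, by simp⟩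
    have d1 := a3 I hI.1 hI.2
    have d2 := le_sSup' (Q := fun X => irr G Z X ∧ dom G Z X) ⟨a1, a2⟩
    have d3 := n Z
    rw [indepNum_induce, upperDom_induce] at d3
    omega

omit [Finite V] in
lemma cf_of (h : ¬chair.IsIndContained G) : CF G := by
  intro c a b d e h1 h2 h3 h4 h5 h6 h7 h8 h9 h10
  simp only [N, not_or] at h5 h8 h9 h10
  have n1 : a ≠ d := fun m => h8.2 (m ▸ h4)
  have n2 : b ≠ d := fun m => h9.2 (m ▸ h4)
  refine h ⟨⟨⟨![c, a, b, d, e], fun i j => ?_⟩, fun {i j} => ?_⟩⟩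
  · have := h1.ne
    have := h2.ne
    have := h3.ne
    have := h4.ne
    fin_cases i <;> fin_cases j <;> simp <;> grind
  · have := h1.symm
    have := h2.symm
    have := h3.symm
    have := h4.symm
    fin_cases i <;> fin_cases j <;> simp [chair, G.adj_comm, *]

omit [Finite V] in
lemma core_of {Z : Finset V} {σ : V → V} {s : V → Bool} (h : Mt G Z σ s) (hU : CU G Z s)
    (hC : Conn G Z) (hT : Tri G Z) :
    IsCore G {z | z ∈ Z ∧ s z = true} {z | z ∈ Z ∧ s z = false} := by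
  classical
  have hZ : {z | z ∈ Z ∧ s z = true} ∪ {z | z ∈ Z ∧ s z = false} = (Z : Set V) := by
    ext z
    cases hh : s z <;> simp [hh]
  have cu : ∀ b, IsCliqueUnion G {z | z ∈ Z ∧ s z = b} := fun b =>
    ⟨fun a ha => by
      obtain ⟨c, c1, c2, c3⟩ := h.nbr a ha.1
      exact ⟨c, ⟨c1, c3.trans ha.2⟩, c2⟩,
    fun x hx y hy z hz a1 a2 a3 => (hU x hx.1 y hy.1 z hz.1 (hy.2.trans hx.2.symm)
      (hz.2.trans hx.2.symm) a1 a2).resolve_left a3⟩
  have mt : ∀ b, ∀ x ∈ Z, s x = b → ∃! y, (y ∈ Z ∧ s y = !b) ∧ G.Adj x y := fun b x hx e =>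
    ⟨σ x, ⟨⟨h.mem x hx, by rw [h.side x hx, e]⟩, h.adj x hx⟩, fun y hy =>
      (h.uniq x hx y hy.1.1 hy.2).resolve_left fun m => by
        have := hy.1.2
        rw [m, e] at this
        simp at this⟩
  obtain ⟨p, hp, q, hq, r, hr, a1, a2, a3⟩ := hT
  refine ⟨Set.disjoint_left.2 fun z a b => by simpa [a.2] using b.2,
    fun x hx => mt true x hx.1 hx.2, fun y hy => ?_, cu true, cu false, ?_, ?_⟩
  · have := mt false y hy.1 hy.2
    simp only [G.adj_comm y, Bool.not_false] at this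
    exact this
  · rw [hZ]
    have : Nonempty (Z : Set V) := ⟨⟨p, hp⟩⟩
    refine ⟨fun a b => ?_⟩
    exact (hC.ind (Q := fun z => ∀ hz : z ∈ Z, (G.induce (Z : Set V)).Reachable a ⟨z, hz⟩)
      (fun x hx y _ m ih hy => (ih hx).trans (SimpleGraph.Adj.reachable m)) a.2
      (fun _ => .refl _) b.2) b.2
  · rw [hZ]
    exact fun m => m _ ((SimpleGraph.is3Clique_triple_iff (G := G.induce (Z : Set V))
      (a := ⟨p, hp⟩) (b := ⟨q, hq⟩) (c := ⟨r, hr⟩)).2 ⟨a1, a2, a3⟩)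

lemma of_core {X Y : Set V} (h : IsCore G X Y) : ∃ (Z : Finset V) (σ : V → V) (s : V → Bool),
    Mt G Z σ s ∧ CU G Z s ∧ Conn G Z ∧ Tri G Z ∧ (∀ z, z ∈ X ↔ z ∈ Z ∧ s z = true) ∧
      ∀ z, z ∈ Y ↔ z ∈ Z ∧ s z = false := by
  classical
  choose! f hf1 hf2 using h.matchX
  choose! g hg1 hg2 using h.matchY
  have hd : ∀ y ∈ Y, y ∉ X := fun y hy hx => Set.disjoint_left.1 h.disjoint hx hy
  have hm : ∀ z, z ∈ (X ∪ Y).toFinite.toFinset ↔ z ∈ X ∨ z ∈ Y := fun z => by simp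
  refine ⟨(X ∪ Y).toFinite.toFinset, fun z => if z ∈ X then f z else g z,
    fun z => decide (z ∈ X), ⟨?_, ?_, ?_, ?_, ?_, ?_⟩, ?_, ?_, ?_, fun z => ?_, fun z => ?_⟩
  · intro z hz
    rcases (hm z).1 hz with a | a
    · simp [a, (hf1 z a).1]
    · simp [hd z a, (hg1 z a).1]
  · intro z hz
    rcases (hm z).1 hz with a | a
    · simp [a, hd _ (hf1 z a).1, ← hg2 _ (hf1 z a).1 z ⟨a, (hf1 z a).2⟩]
    · simp [hd z a, (hg1 z a).1, ← hf2 _ (hg1 z a).1 z ⟨a, (hg1 z a).2⟩]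
  · intro z hz
    rcases (hm z).1 hz with a | a
    · simp [a, hd _ (hf1 z a).1]
    · simp [hd z a, (hg1 z a).1]
  · intro z hz
    rcases (hm z).1 hz with a | a
    · simp [a, (hf1 z a).2]
    · simp [hd z a, (hg1 z a).2.symm]
  · intro z hz z' hz' e
    rcases (hm z).1 hz with a | a <;> rcases (hm z').1 hz' with a' | a'
    · simp [a, a']
    · simp [a, hf2 z a z' ⟨a', e⟩]
    · simp [hd z a, hg2 z a z' ⟨a', e.symm⟩]
    · simp [hd z a, hd z' a']
  · intro z hz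
    rcases (hm z).1 hz with a | a
    · obtain ⟨b, c1, c2⟩ := h.cliquesX.1 z a
      exact ⟨b, (hm b).2 (Or.inl c1), c2, by simp [a, c1]⟩
    · obtain ⟨b, c1, c2⟩ := h.cliquesY.1 z a
      exact ⟨b, (hm b).2 (Or.inr c1), c2, by simp [hd z a, hd b c1]⟩
  · intro a ha b hb c hc e1 e2 a1 a2
    rw [decide_eq_decide] at e1 e2
    by_cases n : b = c
    · exact Or.inl n
    by_cases m : a ∈ X
    · exact Or.inr (h.cliquesX.2 a m b (e1.2 m) c (e2.2 m) a1 a2 n)
    · exact Or.inr (h.cliquesY.2 a (((hm a).1 ha).resolve_left m) b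
        (((hm b).1 hb).resolve_left fun l => m (e1.1 l)) c
        (((hm c).1 hc).resolve_left fun l => m (e2.1 l)) a1 a2 n)
  · intro a ha b hb
    have := (SimpleGraph.reachable_iff_reflTransGen _ _).1
      (h.connected.preconnected ⟨a, (hm a).1 ha⟩ ⟨b, (hm b).1 hb⟩)
    exact Relation.ReflTransGen.lift (r := (G.induce (X ∪ Y)).Adj) Subtype.val
      (fun x y m => ⟨(hm x).2 x.2, (hm y).2 y.2, m⟩) _ _ this
  · have := h.triangle
    rw [SimpleGraph.CliqueFree] at this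
    push Not at this
    obtain ⟨t, ht⟩ := this
    obtain ⟨a, b, c, a1, a2, a3, -⟩ := SimpleGraph.is3Clique_iff.1 ht
    exact ⟨a, (hm a).2 a.2, b, (hm b).2 b.2, c, (hm c).2 c.2, a1, a2, a3⟩
  · simp only [hm, decide_eq_true_eq]
    tauto
  · simp only [hm, decide_eq_false_iff_not]
    exact ⟨fun a => ⟨Or.inr a, hd z a⟩, fun a => a.1.resolve_left a.2⟩

theorem chairFree (hG : ¬chair.IsIndContained G) :
    ((∀ S : Set V, upperDom (G.induce S) = upperIrr (G.induce S)) ∧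
      ¬∀ S : Set V, (G.induce S).indepNum = upperDom (G.induce S)) ↔
    (∃ X Y, IsCore G X Y) ∧ ∀ X Y, IsCore G X Y →
      ∀ u ∈ closedNbhd G Y \ (closedNbhd G X), ∀ w ∈ closedNbhd G X \ (closedNbhd G Y),
        G.Adj u w := by
  rw [perfect_iff (cf_of hG), imperfect_iff (cf_of hG), and_comm]
  refine and_congr ⟨fun ⟨Z, σ, s, a, b, c, d⟩ => ⟨_, _, core_of a b c d⟩, fun ⟨X, Y, h⟩ => ?_⟩
    ⟨fun h X Y hc u hu w hw => ?_, fun h Z σ s a b c d u w hu hw a1 a2 a3 a4 => ?_⟩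
  · obtain ⟨Z, σ, s, a, b, c, d, -⟩ := of_core h
    exact ⟨Z, σ, s, a, b, c, d⟩
  · obtain ⟨Z, σ, s, a, b, c, d, e1, e2⟩ := of_core hc
    simp only [Set.mem_sdiff, mem_closedNbhd, e1, e2, not_exists, not_and, and_imp] at hu hw
    have key : ∀ v b, (∀ x ∈ Z, s x = b → ¬N G x v) → v ∉ Z := fun v b m hv => by
      by_cases c : s v = b
      · exact m v hv c (N.refl v)
      · refine m _ (a.mem v hv) ?_ (Or.inr (a.adj v hv).symm)
        rw [a.side v hv]
        revert c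
        cases s v <;> cases b <;> simp
    have hu' := key u _ hu.2
    have hw' := key w _ hw.2
    obtain ⟨⟨y, hy, m1⟩, -⟩ := id hu
    obtain ⟨⟨x, hx, m2⟩, -⟩ := id hw
    exact h Z σ s a b c d u w hu' hw' (fun z hz e m => hu.2 z hz e (Or.inr m))
      (fun z hz e m => hw.2 z hz e (Or.inr m))
      ⟨y, hy.1, m1.resolve_left fun e => hu' (e ▸ hy.1)⟩
      ⟨x, hx.1, m2.resolve_left fun e => hw' (e ▸ hx.1)⟩
  · obtain ⟨y, hy, m1⟩ := a3
    obtain ⟨x, hx, m2⟩ := a4
    refine h _ _ (core_of a b c d) u ⟨mem_closedNbhd.2 ⟨y, ⟨hy, ?_⟩, Or.inr m1⟩, fun m => ?_⟩ w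
      ⟨mem_closedNbhd.2 ⟨x, ⟨hx, ?_⟩, Or.inr m2⟩, fun m => ?_⟩
    · simpa using fun e => a1 y hy e m1
    · obtain ⟨z, hz, m⟩ := mem_closedNbhd.1 m
      exact m.elim (fun e => hu (e ▸ hz.1)) (a1 z hz.1 hz.2)
    · simpa using fun e => a2 x hx e m2
    · obtain ⟨z, hz, m⟩ := mem_closedNbhd.1 m
      exact m.elim (fun e => hw (e ▸ hz.1)) (a2 z hz.1 hz.2)

end Pool.Agent.MP_55bf9a_co

end
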